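import Mathlib

/-!
# The closed range of a real divisor function has exponentially many components

For real `r ≥ 7` let `σ_{-r}(n)` be the sum of `d ^ (-r)` over the divisors `d` of `n`. Two numbers with
different sets of divisors `≤ r` have values in different components of the closure of the range: at
the least number `d ≤ r` that divides only one of them, `d ^ (-r)` is larger than the sum of all
`e ^ (-r)`, `e > d`.
-/

set_option autoImplicit false

open Finset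

namespace Pool.Agent.Results.MP_e3aa03_nt.ExponentialLowerBound

/-- `σ_c(n)`: the sum of `d ^ c` over the divisors `d` of `n`, for real `c`. -/
noncomputable def sigma (c : ℝ) (n : ℕ) : ℝ := ∑ d ∈ n.divisors, (d : ℝ) ^ c

/-- The closure of the range of `σ_c` on the positive integers. -/
def closedRange (c : ℝ) : Set ℝ := closure {x | ∃ n : ℕ, 1 ≤ n ∧ sigma c n = x}

theorem tele {c x : ℝ} (hc : c ≤ -2) (hx : 1 ≤ x) :
    (-c - 1) * (x + 1) ^ c * (1 + 1 / x) ≤ x ^ (c + 1) - (x + 1) ^ (c + 1) := by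
  have hx0 : 0 < x := by linarith
  have hx1 : 0 < x + 1 := by linarith
  have hB : 1 + (-c - 1) * (1 / x) ≤ (1 + 1 / x) ^ (-c - 1) :=
    one_add_mul_self_le_rpow_one_add (by
      have : 0 ≤ 1 / x := by positivity
      linarith) (by linarith)
  have h1 : (1 + 1 / x) ^ (-c - 1) * (x + 1) ^ (c + 1) = x ^ (c + 1) := by
    have e1 : 1 + 1 / x = (x + 1) / x := by
      field_simp
    have e2 : (-c - 1) = -(c + 1) := by ring
    rw [e1, Real.div_rpow hx1.le hx0.le, e2, Real.rpow_neg hx1.le, Real.rpow_neg hx0.le]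
    have h2 : 0 < (x + 1) ^ (c + 1) := Real.rpow_pos_of_pos hx1 _
    have h3 : 0 < x ^ (c + 1) := Real.rpow_pos_of_pos hx0 _
    field_simp
  have h4 : (x + 1) ^ (c + 1) = (x + 1) ^ c * (x + 1) := by
    rw [Real.rpow_add hx1, Real.rpow_one]
  have h5 : 0 < (x + 1) ^ (c + 1) := Real.rpow_pos_of_pos hx1 _
  have h6 := mul_le_mul_of_nonneg_right hB h5.le
  rw [h1] at h6
  have h7 : (-c - 1) * (x + 1) ^ c * (1 + 1 / x) = (-c - 1) * (1 / x) * (x + 1) ^ (c + 1) := by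
    rw [h4]
    field_simp
  rw [h7]
  linarith

/-- The bound for the sum of `e ^ c` over `e > d`. -/
noncomputable def B (c : ℝ) (d : ℕ) : ℝ :=
  (d : ℝ) ^ (c + 1) / (-c - 1) - ((d : ℝ) + 1) ^ c / d

theorem tail_aux {c : ℝ} (hc : c ≤ -2) {d : ℕ} (hd : 1 ≤ d) (k : ℕ) :
    ∑ e ∈ Ioc d (d + 1 + k), (e : ℝ) ^ c ≤
      B c d - ((d + 1 + k : ℕ) : ℝ) ^ (c + 1) / (-c - 1) := by
  have ha : 0 < -c - 1 := by linarith
  have hd' : (1 : ℝ) ≤ d := by exact_mod_cast hd
  induction k with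
  | zero =>
    have h1 := tele hc hd'
    have h2 : Ioc d (d + 1 + 0) = {d + 1} := by
      ext e
      simp only [mem_Ioc, mem_singleton]
      omega
    rw [h2, sum_singleton, B]
    push_cast
    have h3 : ((d : ℝ) + 1) ^ c * (1 + 1 / d) ≤
        (d : ℝ) ^ (c + 1) / (-c - 1) - ((d : ℝ) + 1) ^ (c + 1) / (-c - 1) := by
      rw [← sub_div, le_div_iff₀ ha]
      linarith
    have h4 : ((d : ℝ) + 1) ^ c * (1 + 1 / d) = ((d : ℝ) + 1) ^ c + ((d : ℝ) + 1) ^ c / d := by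
      ring
    have h5 : (d : ℝ) + 1 + 0 = d + 1 := by ring
    rw [h5]
    linarith
  | succ k ih =>
    have h2 : Ioc d (d + 1 + (k + 1)) = insert (d + 1 + k + 1) (Ioc d (d + 1 + k)) := by
      ext e
      simp only [mem_Ioc, mem_insert]
      omega
    have h3 : d + 1 + k + 1 ∉ Ioc d (d + 1 + k) := by
      simp
    rw [h2, sum_insert h3]
    have hx : (1 : ℝ) ≤ ((d + 1 + k : ℕ) : ℝ) := by
      push_cast
      have : (0 : ℝ) ≤ k := Nat.cast_nonneg k
      linarith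
    have h1 := tele hc hx
    have e1 : (((d + 1 + k + 1 : ℕ) : ℝ)) = ((d + 1 + k : ℕ) : ℝ) + 1 := by push_cast; ring
    have e2 : (((d + 1 + (k + 1) : ℕ) : ℝ)) = ((d + 1 + k : ℕ) : ℝ) + 1 := by push_cast; ring
    rw [e1, e2]
    obtain ⟨x, hxe⟩ : ∃ x : ℝ, x = ((d + 1 + k : ℕ) : ℝ) := ⟨_, rfl⟩
    rw [← hxe] at h1 hx ih ⊢
    have hp : 0 < (x + 1) ^ c := Real.rpow_pos_of_pos (by linarith) _
    have h4 : (x + 1) ^ c ≤ x ^ (c + 1) / (-c - 1) - (x + 1) ^ (c + 1) / (-c - 1) := by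
      rw [← sub_div, le_div_iff₀ ha]
      have h5 : (x + 1) ^ c * (-c - 1) ≤ (-c - 1) * (x + 1) ^ c * (1 + 1 / x) := by
        have h6 : (-c - 1) * (x + 1) ^ c * (1 + 1 / x) =
            (x + 1) ^ c * (-c - 1) + (-c - 1) * (x + 1) ^ c * (1 / x) := by ring
        have h7 : 0 ≤ (-c - 1) * (x + 1) ^ c * (1 / x) := by positivity
        linarith
      linarith
    linarith

theorem tail {c : ℝ} (hc : c ≤ -2) {d : ℕ} (hd : 1 ≤ d) (N : ℕ) :
    ∑ e ∈ Ioc d N, (e : ℝ) ^ c ≤ B c d := by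
  have h1 := tail_aux hc hd N
  have h2 : ∑ e ∈ Ioc d N, (e : ℝ) ^ c ≤ ∑ e ∈ Ioc d (d + 1 + N), (e : ℝ) ^ c :=
    sum_le_sum_of_subset_of_nonneg (Ioc_subset_Ioc le_rfl (by omega)) fun e _ _ =>
      Real.rpow_nonneg (Nat.cast_nonneg e) c
  have h3 : 0 ≤ ((d + 1 + N : ℕ) : ℝ) ^ (c + 1) / (-c - 1) :=
    div_nonneg (Real.rpow_nonneg (Nat.cast_nonneg _) _) (by linarith)
  linarith

/-- The bound with the first term split off. -/
noncomputable def B2 (c : ℝ) (d : ℕ) : ℝ := ((d : ℝ) + 1) ^ c + B c (d + 1)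

theorem tail2 {c : ℝ} (hc : c ≤ -7) (d N : ℕ) : ∑ e ∈ Ioc d N, (e : ℝ) ^ c ≤ B2 c d := by
  have h1 := tail (show c ≤ -2 by linarith) (show 1 ≤ d + 1 by omega) N
  have h2 : ∑ e ∈ Ioc d N, (e : ℝ) ^ c ≤ ∑ e ∈ insert (d + 1) (Ioc (d + 1) N), (e : ℝ) ^ c := by
    refine sum_le_sum_of_subset_of_nonneg ?_ fun e _ _ => Real.rpow_nonneg (Nat.cast_nonneg e) c
    intro e he
    simp only [mem_insert, mem_Ioc] at he ⊢
    omega
  have h3 : d + 1 ∉ Ioc (d + 1) N := by simp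
  rw [sum_insert h3] at h2
  have h4 : ((d + 1 : ℕ) : ℝ) = (d : ℝ) + 1 := by push_cast; ring
  rw [h4] at h2
  rw [B2]
  linarith

theorem B2_lt {c : ℝ} (hc : c ≤ -7) {d : ℕ} (hd : 1 ≤ d) (hdc : (d : ℝ) ≤ -c) :
    B2 c d < (d : ℝ) ^ c := by
  have hd' : (1 : ℝ) ≤ d := by exact_mod_cast hd
  have hd0 : (0 : ℝ) < d := by linarith
  have hd1 : (0 : ℝ) < d + 1 := by linarith
  have ha : 0 < -c - 1 := by linarith
  have h1 : ((d : ℝ) + 1) ^ (c + 1) = ((d : ℝ) + 1) ^ c * (d + 1) := by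
    rw [Real.rpow_add hd1, Real.rpow_one]
  have h2 : 0 < ((d : ℝ) + 1) ^ c := Real.rpow_pos_of_pos hd1 _
  have h3 : 0 < (((d + 1 : ℕ) : ℝ) + 1) ^ c / ((d + 1 : ℕ) : ℝ) := by positivity
  have h4 : ((d + 1 : ℕ) : ℝ) = (d : ℝ) + 1 := by push_cast; ring
  -- the ratio
  obtain ⟨s, hs⟩ : ∃ s : ℝ, s = -c / d := ⟨_, rfl⟩
  have hs1 : 1 ≤ s := by
    rw [hs, le_div_iff₀ hd0]
    linarith
  have hsd : s * d = -c := by
    rw [hs]
    field_simp
  have hB : 1 + (-c / 3) * (1 / d) ≤ (1 + 1 / (d : ℝ)) ^ (-c / 3) :=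
    one_add_mul_self_le_rpow_one_add (by
      have : 0 ≤ 1 / (d : ℝ) := by positivity
      linarith) (by linarith)
  have hB' : 1 + s / 3 ≤ (1 + 1 / (d : ℝ)) ^ (-c / 3) := by
    have h5 : (-c / 3) * (1 / d) = s / 3 := by
      rw [hs]
      ring
    rwa [h5] at hB
  have hcube : (1 + s / 3) ^ 3 ≤ (1 + 1 / (d : ℝ)) ^ (-c) := by
    have h5 : (1 + 1 / (d : ℝ)) ^ (-c) = ((1 + 1 / (d : ℝ)) ^ (-c / 3)) ^ 3 := by
      rw [← Real.rpow_natCast, ← Real.rpow_mul (by positivity)]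
      congr 1
      push_cast
      ring
    rw [h5]
    exact pow_le_pow_left₀ (by linarith) hB' 3
  have hpow : (1 + 1 / (d : ℝ)) ^ (-c) * ((d : ℝ) + 1) ^ c = (d : ℝ) ^ c := by
    have e1 : 1 + 1 / (d : ℝ) = (d + 1) / d := by
      field_simp
    rw [e1, Real.div_rpow hd1.le hd0.le, Real.rpow_neg hd1.le, Real.rpow_neg hd0.le]
    have h5 : 0 < (d : ℝ) ^ c := Real.rpow_pos_of_pos hd0 _
    field_simp
  have hnum : 1 + ((d : ℝ) + 1) / (-c - 1) < (1 + s / 3) ^ 3 := by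
    have h5 : 1 + ((d : ℝ) + 1) / (-c - 1) = (-c + d) / (-c - 1) := by
      field_simp
      ring
    rw [h5, div_lt_iff₀ ha]
    have h6 : (0 : ℝ) ≤ s - 1 := by linarith
    have h7 : 1 + s + s ^ 2 / 3 + 1 / 27 ≤ (1 + s / 3) ^ 3 := by nlinarith [mul_nonneg h6 h6]
    have h8 : (1 + s + s ^ 2 / 3 + 1 / 27) * (-c - 1) ≤ (1 + s / 3) ^ 3 * (-c - 1) :=
      mul_le_mul_of_nonneg_right h7 ha.le
    have h9 : (d : ℝ) ≤ -c := hdc
    have h10 : 6 ≤ -c - 1 := by linarith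
    have h11 : (64 : ℝ) / 27 * (-c - 1) ≤ (1 + s + s ^ 2 / 3 + 1 / 27) * (-c - 1) := by
      refine mul_le_mul_of_nonneg_right ?_ ha.le
      nlinarith
    linarith
  have h12 : B2 c d < ((d : ℝ) + 1) ^ c * (1 + ((d : ℝ) + 1) / (-c - 1)) := by
    rw [B2, B, h4, h1]
    rw [h4] at h3
    have h13 : ((d : ℝ) + 1) ^ c * (1 + ((d : ℝ) + 1) / (-c - 1)) =
        ((d : ℝ) + 1) ^ c + ((d : ℝ) + 1) ^ c * (d + 1) / (-c - 1) := by ring
    rw [h13]
    linarith
  have h14 : ((d : ℝ) + 1) ^ c * (1 + ((d : ℝ) + 1) / (-c - 1)) < (d : ℝ) ^ c := by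
    rw [← hpow, mul_comm]
    exact mul_lt_mul_of_pos_right (lt_of_lt_of_le hnum hcube) h2
  linarith

/-- The part of `σ_c(n)` from the divisors below `d`. -/
noncomputable def low (c : ℝ) (n d : ℕ) : ℝ := ∑ e ∈ n.divisors with e < d, (e : ℝ) ^ c

theorem low_congr {c : ℝ} {m n d : ℕ} (hm : m ≠ 0) (hn : n ≠ 0)
    (h : ∀ e < d, (e ∣ m ↔ e ∣ n)) : low c m d = low c n d := by
  unfold low
  congr 1
  ext e
  simp only [mem_filter, Nat.mem_divisors]
  constructor
  · rintro ⟨⟨h1, -⟩, h2⟩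
    exact ⟨⟨(h e h2).1 h1, hn⟩, h2⟩
  · rintro ⟨⟨h1, -⟩, h2⟩
    exact ⟨⟨(h e h2).2 h1, hm⟩, h2⟩

theorem up {c : ℝ} {m d : ℕ} (hm : m ≠ 0) (h : d ∣ m) : low c m d + (d : ℝ) ^ c ≤ sigma c m := by
  have h1 : d ∉ m.divisors.filter (· < d) := by simp
  have h2 : low c m d + (d : ℝ) ^ c = ∑ e ∈ insert d (m.divisors.filter (· < d)), (e : ℝ) ^ c := by
    rw [sum_insert h1, low, add_comm]
  rw [h2, sigma]
  refine sum_le_sum_of_subset_of_nonneg ?_ fun e _ _ => Real.rpow_nonneg (Nat.cast_nonneg e) c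
  intro e he
  rcases mem_insert.1 he with rfl | he
  · exact Nat.mem_divisors.2 ⟨h, hm⟩
  · exact (mem_filter.1 he).1

theorem down {c : ℝ} (hc : c ≤ -7) {m d : ℕ} (h : ¬ d ∣ m) :
    sigma c m ≤ low c m d + B2 c d := by
  have h1 := tail2 hc d m
  have h2 : sigma c m = low c m d + ∑ e ∈ m.divisors with ¬ e < d, (e : ℝ) ^ c :=
    (sum_filter_add_sum_filter_not _ _ _).symm
  have h3 : ∑ e ∈ m.divisors with ¬ e < d, (e : ℝ) ^ c ≤ ∑ e ∈ Ioc d m, (e : ℝ) ^ c := by
    refine sum_le_sum_of_subset_of_nonneg ?_ fun e _ _ => Real.rpow_nonneg (Nat.cast_nonneg e) c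
    intro e he
    obtain ⟨he1, he2⟩ := mem_filter.1 he
    have h4 := Nat.mem_divisors.1 he1
    have h5 : e ≠ d := by
      rintro rfl
      exact h h4.1
    exact mem_Ioc.2 ⟨by omega, Nat.divisor_le he1⟩
  rw [h2]
  linarith

/-- Below `d`, at a divisor `e < d` of `n` or not of `n`. -/
theorem low_step {c : ℝ} (hc : c ≤ -7) {n e d : ℕ} (hed : e < d) (h : ¬ e ∣ n) :
    low c n d + (d : ℝ) ^ c ≤ low c n e + B2 c e := by
  have h1 := tail2 hc e d
  have h2 : low c n d = low c n e + ∑ f ∈ (n.divisors.filter (· < d)).filter (fun f => ¬ f < e),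
      (f : ℝ) ^ c := by
    rw [low, low, ← sum_filter_add_sum_filter_not (n.divisors.filter (· < d)) (· < e)]
    congr 1
    refine sum_congr ?_ fun _ _ => rfl
    ext f
    simp only [mem_filter]
    constructor
    · rintro ⟨⟨h3, h4⟩, h5⟩
      exact ⟨h3, h5⟩
    · rintro ⟨h3, h5⟩
      exact ⟨⟨h3, by omega⟩, h5⟩
  have h3 : (d : ℝ) ^ c + ∑ f ∈ (n.divisors.filter (· < d)).filter (fun f => ¬ f < e),
      (f : ℝ) ^ c ≤ ∑ f ∈ Ioc e d, (f : ℝ) ^ c := by
    have h4 : d ∉ (n.divisors.filter (· < d)).filter (fun f => ¬ f < e) := by simp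
    have h10 : (d : ℝ) ^ c + ∑ f ∈ (n.divisors.filter (· < d)).filter (fun f => ¬ f < e),
        (f : ℝ) ^ c = ∑ f ∈ insert d ((n.divisors.filter (· < d)).filter (fun f => ¬ f < e)),
        (f : ℝ) ^ c := by
      rw [sum_insert h4]
    rw [h10]
    refine sum_le_sum_of_subset_of_nonneg ?_ fun e _ _ => Real.rpow_nonneg (Nat.cast_nonneg e) c
    intro f hf
    rcases mem_insert.1 hf with rfl | hf
    · exact mem_Ioc.2 ⟨hed, le_rfl⟩
    · obtain ⟨h5, h6⟩ := mem_filter.1 hf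
      obtain ⟨h7, h8⟩ := mem_filter.1 h5
      have h9 : f ≠ e := by
        rintro rfl
        exact h (Nat.mem_divisors.1 h7).1
      exact mem_Ioc.2 ⟨by omega, by omega⟩
  linarith

theorem low_up {c : ℝ} {n e d : ℕ} (hn : n ≠ 0) (hed : e < d) (h : e ∣ n) :
    low c n e + (e : ℝ) ^ c ≤ low c n d := by
  have h1 : e ∉ n.divisors.filter (· < e) := by simp
  have h2 : low c n e + (e : ℝ) ^ c = ∑ f ∈ insert e (n.divisors.filter (· < e)), (f : ℝ) ^ c := by
    rw [sum_insert h1, low, add_comm]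
  rw [h2, low]
  refine sum_le_sum_of_subset_of_nonneg ?_ fun e _ _ => Real.rpow_nonneg (Nat.cast_nonneg e) c
  intro f hf
  rcases mem_insert.1 hf with rfl | hf
  · exact mem_filter.2 ⟨Nat.mem_divisors.2 ⟨h, hn⟩, hed⟩
  · obtain ⟨h3, h4⟩ := mem_filter.1 hf
    exact mem_filter.2 ⟨h3, by omega⟩

/-- No value of `σ_c` lies in the gap belonging to `n` and `d`. -/
theorem gap {c : ℝ} (hc : c ≤ -7) {n d : ℕ} (hn : n ≠ 0) (hdc : (d : ℝ) ≤ -c) {m : ℕ}
    (hm : m ≠ 0) : sigma c m ≤ low c n d + B2 c d ∨ low c n d + (d : ℝ) ^ c ≤ sigma c m := by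
  by_cases h : ∀ e < d, (e ∣ m ↔ e ∣ n)
  · rw [← low_congr hm hn h]
    by_cases h1 : d ∣ m
    · exact Or.inr (up hm h1)
    · exact Or.inl (down hc h1)
  · push_neg at h
    obtain ⟨e, ⟨hed, he⟩, hmin⟩ : ∃ e, (e < d ∧ ¬ (e ∣ m ↔ e ∣ n)) ∧
        ∀ f < e, (f ∣ m ↔ f ∣ n) := by
      classical
      have hex : ∃ e, e < d ∧ ¬ (e ∣ m ↔ e ∣ n) := by
        obtain ⟨e, h1, h2⟩ := h
        refine ⟨e, h1, fun h3 => ?_⟩
        rcases h2 with ⟨h4, h5⟩ | ⟨h4, h5⟩
        · exact h5 (h3.1 h4)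
        · exact h4 (h3.2 h5)
      refine ⟨Nat.find hex, Nat.find_spec hex, fun f hf => ?_⟩
      by_contra h3
      exact Nat.find_min hex hf ⟨lt_trans hf (Nat.find_spec hex).1, h3⟩
    have he1 : 1 ≤ e := by
      rcases Nat.eq_zero_or_pos e with h0 | h0
      · exfalso
        subst h0
        apply he
        rw [zero_dvd_iff, zero_dvd_iff]
        exact ⟨fun h => absurd h hm, fun h => absurd h hn⟩
      · exact h0
    have hec : (e : ℝ) ≤ -c := by
      have : (e : ℝ) < d := by exact_mod_cast hed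
      linarith
    have hBe := B2_lt hc he1 hec
    have hlow := low_congr (c := c) hm hn hmin
    by_cases h1 : e ∣ m
    · have h2 : ¬ e ∣ n := fun h2 => he ⟨fun _ => h2, fun _ => h1⟩
      right
      have h3 := up (c := c) hm h1
      have h4 := low_step hc hed h2
      linarith
    · have h2 : e ∣ n := by
        by_contra h2
        exact he ⟨fun h => absurd h h1, fun h => absurd h h2⟩
      left
      have h3 := down hc h1
      have h4 := low_up (c := c) hn hed h2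
      have h5 : 0 ≤ B2 c d := le_trans (sum_nonneg fun e _ =>
        Real.rpow_nonneg (Nat.cast_nonneg e) c) (tail2 hc d 0)
      linarith

/-- Two numbers with different divisors up to `D` are separated. -/
theorem sep {c : ℝ} (hc : c ≤ -7) {n n' d : ℕ} (hn : n ≠ 0) (hn' : n' ≠ 0) (hd : 1 ≤ d)
    (hdc : (d : ℝ) ≤ -c) (hlow : ∀ e < d, (e ∣ n ↔ e ∣ n')) (h1 : d ∣ n) (h2 : ¬ d ∣ n') :
    ∃ t, t ∉ closedRange c ∧ sigma c n' < t ∧ t < sigma c n := by
  have hB := B2_lt hc hd hdc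
  refine ⟨low c n d + (B2 c d + (d : ℝ) ^ c) / 2, ?_, ?_, ?_⟩
  · have hsub : {x | ∃ m : ℕ, 1 ≤ m ∧ sigma c m = x} ⊆
        (Set.Ioo (low c n d + B2 c d) (low c n d + (d : ℝ) ^ c))ᶜ := by
      rintro x ⟨m, hm, rfl⟩ ⟨hx1, hx2⟩
      rcases gap hc hn hdc (m := m) (by omega) with h | h <;> linarith
    have hcl : IsClosed (Set.Ioo (low c n d + B2 c d) (low c n d + (d : ℝ) ^ c))ᶜ :=
      isOpen_Ioo.isClosed_compl
    intro ht
    exact closure_minimal hsub hcl ht ⟨by linarith, by linarith⟩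
  · have h3 := down hc h2
    rw [← low_congr hn hn' hlow] at h3
    linarith
  · have h3 := up (c := c) hn h1
    linarith

/-- A separating point that is not in the closed range separates the components. -/
theorem comp_ne {c : ℝ} {x y : closedRange c} {t : ℝ} (ht : t ∉ closedRange c)
    (hx : (x : ℝ) < t) (hy : t < (y : ℝ)) :
    (x : ConnectedComponents (closedRange c)) ≠ (y : ConnectedComponents (closedRange c)) := by
  intro h
  have h1 := ConnectedComponents.coe_eq_coe.1 h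
  have h2 : IsPreconnected ((Subtype.val : closedRange c → ℝ) '' connectedComponent x) :=
    isPreconnected_connectedComponent.image _ continuous_subtype_val.continuousOn
  have h3 : (x : ℝ) ∈ (Subtype.val : closedRange c → ℝ) '' connectedComponent x :=
    ⟨x, mem_connectedComponent, rfl⟩
  have h4 : (y : ℝ) ∈ (Subtype.val : closedRange c → ℝ) '' connectedComponent x :=
    ⟨y, by rw [h1]; exact mem_connectedComponent, rfl⟩
  obtain ⟨z, -, hz⟩ := h2.Icc_subset h3 h4 ⟨hx.le, hy.le⟩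
  exact ht (hz ▸ z.2)

/-- The primes up to `D`. -/
def P (D : ℕ) : Finset ℕ := (range (D + 1)).filter Nat.Prime

/-- The exponents as a finitely supported function. -/
noncomputable def expo (D : ℕ) (f : (p : P D) → Fin (Nat.log p D + 1)) : ℕ →₀ ℕ :=
  Finsupp.onFinset (P D) (fun p => if h : p ∈ P D then ((f ⟨p, h⟩ : ℕ)) else 0) (by
    intro p hp
    by_contra h
    simp [h] at hp)

/-- The number with these exponents. -/
noncomputable def num (D : ℕ) (f : (p : P D) → Fin (Nat.log p D + 1)) : ℕ :=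
  (expo D f).prod fun p k => p ^ k

theorem num_fac (D : ℕ) (f : (p : P D) → Fin (Nat.log p D + 1)) :
    (num D f).factorization = expo D f := by
  refine Nat.prod_pow_factorization_eq_self fun p hp => ?_
  have h1 : p ∈ P D := Finsupp.support_onFinset_subset hp
  exact (mem_filter.1 h1).2

theorem num_ne (D : ℕ) (f : (p : P D) → Fin (Nat.log p D + 1)) : num D f ≠ 0 := by
  unfold num
  rw [Finsupp.prod]
  refine prod_ne_zero_iff.2 fun p hp => ?_
  have h1 : p ∈ P D := Finsupp.support_onFinset_subset hp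
  exact pow_ne_zero _ (mem_filter.1 h1).2.ne_zero

theorem pow_dvd {D : ℕ} (f : (p : P D) → Fin (Nat.log p D + 1)) (p : P D) (k : ℕ) :
    (p : ℕ) ^ k ∣ num D f ↔ k ≤ (f p : ℕ) := by
  have hp : (p : ℕ).Prime := (mem_filter.1 p.2).2
  rw [hp.pow_dvd_iff_le_factorization (num_ne D f), num_fac]
  have h1 : expo D f (p : ℕ) = (f p : ℕ) := by
    unfold expo
    rw [Finsupp.onFinset_apply, dif_pos p.2]
  rw [h1]

/-- Different exponents give different divisors up to `D`. -/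
theorem exists_dvd {D : ℕ} {f g : (p : P D) → Fin (Nat.log p D + 1)} (h : f ≠ g) :
    ∃ d, d ≤ D ∧ ¬ (d ∣ num D f ↔ d ∣ num D g) := by
  obtain ⟨p, hp⟩ := Function.ne_iff.1 h
  have hp' : (f p : ℕ) ≠ (g p : ℕ) := fun h => hp (Fin.ext h)
  have hpr : (p : ℕ).Prime := (mem_filter.1 p.2).2
  have hD : D ≠ 0 := by
    have h1 := mem_range.1 (mem_filter.1 p.2).1
    have := hpr.two_le
    omega
  rcases lt_or_gt_of_ne hp' with h1 | h1
  · refine ⟨(p : ℕ) ^ (g p : ℕ), ?_, ?_⟩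
    · exact Nat.pow_le_of_le_log hD (by have := (g p).2; omega)
    · rw [pow_dvd, pow_dvd]
      omega
  · refine ⟨(p : ℕ) ^ (f p : ℕ), ?_, ?_⟩
    · exact Nat.pow_le_of_le_log hD (by have := (f p).2; omega)
    · rw [pow_dvd, pow_dvd]
      omega

/-- The point of the closed range. -/
noncomputable def pt (c : ℝ) (D : ℕ) (f : (p : P D) → Fin (Nat.log p D + 1)) : closedRange c :=
  ⟨sigma c (num D f), subset_closure ⟨num D f, Nat.one_le_iff_ne_zero.2 (num_ne D f), rfl⟩⟩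

theorem pt_inj {c : ℝ} (hc : c ≤ -7) {D : ℕ} (hD : (D : ℝ) ≤ -c) :
    Function.Injective fun f => (pt c D f : ConnectedComponents (closedRange c)) := by
  classical
  intro f g hfg
  by_contra hne
  obtain ⟨d0, hd0, hd0'⟩ := exists_dvd hne
  have hex : ∃ d, ¬ (d ∣ num D f ↔ d ∣ num D g) := ⟨d0, hd0'⟩
  obtain ⟨d, hd, hdD, hmin⟩ : ∃ d, ¬ (d ∣ num D f ↔ d ∣ num D g) ∧ d ≤ D ∧
      ∀ e < d, (e ∣ num D f ↔ e ∣ num D g) := by
    refine ⟨Nat.find hex, Nat.find_spec hex, le_trans (Nat.find_min' hex hd0') hd0, fun e he => ?_⟩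
    by_contra h3
    exact Nat.find_min hex he h3
  have hd1 : 1 ≤ d := by
    rcases Nat.eq_zero_or_pos d with h0 | h0
    · exfalso
      subst h0
      apply hd
      rw [zero_dvd_iff, zero_dvd_iff]
      exact ⟨fun h => absurd h (num_ne D f), fun h => absurd h (num_ne D g)⟩
    · exact h0
  have hdc : (d : ℝ) ≤ -c := by
    have : (d : ℝ) ≤ D := by exact_mod_cast hdD
    linarith
  by_cases h1 : d ∣ num D f
  · have h2 : ¬ d ∣ num D g := fun h2 => hd ⟨fun _ => h2, fun _ => h1⟩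
    obtain ⟨t, ht, ht1, ht2⟩ := sep hc (num_ne D f) (num_ne D g) hd1 hdc hmin h1 h2
    exact comp_ne (x := pt c D g) (y := pt c D f) ht ht1 ht2 hfg.symm
  · have h2 : d ∣ num D g := by
      by_contra h2
      exact hd ⟨fun h => absurd h h1, fun h => absurd h h2⟩
    obtain ⟨t, ht, ht1, ht2⟩ := sep hc (num_ne D g) (num_ne D f) hd1 hdc
      (fun e he => (hmin e he).symm) h2 h1
    exact comp_ne (x := pt c D f) (y := pt c D g) ht ht1 ht2 hfg

theorem card_index (D : ℕ) : Fintype.card ((p : P D) → Fin (Nat.log p D + 1)) =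
    ∏ p ∈ range (D + 1) with p.Prime, (Nat.log p D + 1) := by
  rw [Fintype.card_pi]
  simp only [Fintype.card_fin]
  exact Finset.prod_coe_sort (P D) fun p => Nat.log p D + 1

theorem two_pow_le (D : ℕ) : 2 ^ Nat.primeCounting D ≤
    ∏ p ∈ range (D + 1) with p.Prime, (Nat.log p D + 1) := by
  have h1 : Nat.primeCounting D = (P D).card := by
    rw [Nat.primeCounting, Nat.primeCounting', Nat.count_eq_card_filter_range]
    rfl
  rw [h1, ← Finset.prod_const]
  refine Finset.prod_le_prod' fun p hp => ?_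
  have h2 := (mem_filter.1 hp).2
  have h3 := mem_range.1 (mem_filter.1 hp).1
  have h4 : 1 ≤ Nat.log p D := Nat.log_pos h2.one_lt (by omega)
  omega

/-- Let `r ≥ 7` be real and `D = ⌊r⌋`. The closure of the range of `σ_{-r}` has at least
`∏ (1 + ⌊log_p r⌋)` connected components, the product over the primes `p ≤ r`, so at least `2 ^ π(r)`.
In particular, if it has exactly `m` components, `m ≥ 1`, then this product is at most `m`. -/
theorem result (r : ℝ) (hr : 7 ≤ r) :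
    2 ^ Nat.primeCounting ⌊r⌋₊ ≤ ∏ p ∈ range (⌊r⌋₊ + 1) with p.Prime, (Nat.log p ⌊r⌋₊ + 1) ∧
    ((∏ p ∈ range (⌊r⌋₊ + 1) with p.Prime, (Nat.log p ⌊r⌋₊ + 1) : ℕ) : ℕ∞) ≤
      ENat.card (ConnectedComponents (closedRange (-r))) ∧
    ∀ m : ℕ, 1 ≤ m → Nat.card (ConnectedComponents (closedRange (-r))) = m →
      ∏ p ∈ range (⌊r⌋₊ + 1) with p.Prime, (Nat.log p ⌊r⌋₊ + 1) ≤ m := by
  have hc : -r ≤ -7 := by linarith
  have hD : ((⌊r⌋₊ : ℕ) : ℝ) ≤ -(-r) := by
    rw [neg_neg]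
    exact Nat.floor_le (by linarith)
  refine ⟨two_pow_le _, ?_, ?_⟩
  · have h := ENat.card_le_card_of_injective (pt_inj hc hD)
    rw [ENat.card_eq_coe_fintype_card, card_index] at h
    exact h
  · intro m hm hcard
    have hfin : Finite (ConnectedComponents (closedRange (-r))) :=
      Nat.finite_of_card_ne_zero (by omega)
    have h := Nat.card_le_card_of_injective _ (pt_inj hc hD)
    rw [Nat.card_eq_fintype_card, card_index, hcard] at h
    exact h

end Pool.Agent.Results.MP_e3aa03_nt.ExponentialLowerBound
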